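import Pool.Agent.Helper12.MA.StB
import Pool.Agent.Helper12.MA.Lib

/-!
# Project MA (MP_d63854_co): module TGA

`t` cofacial with both `p` and `q`: no face of `G - t - v` contains `z, r, r'`, and `{z, p, q}` is no face of it.
-/

set_option autoImplicit false

namespace Pool.Agent.Helper77.MA

open Pool.Agent.Helper12.MA
open Pool.Agent.Helper51.AJ (IsMinor Planar Apex ExMinor Con Tch)
open Pool.Agent.Helper12.NK (rst Kc add cnt Pcy IsFace Cof plus)

/-- a set which avoids `p` and is connected in `G` is connected in `dl G p q` -/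
private lemma con_dl {V : Type} (G : SimpleGraph V) (p q : V) (B : Set V) (hB : Con G B) (hp : p ∉ B) :
    Con (dl G p q) B := by
  have h : (dl G p q).induce B = G.induce B := by
    ext a b
    constructor
    · intro h
      exact h.1
    · intro h
      refine ⟨h, ?_, ?_⟩
      · rintro ⟨h1, -⟩
        exact hp (h1 ▸ a.2)
      · rintro ⟨-, h2⟩
        exact hp (h2 ▸ b.2)
  change ((dl G p q).induce B).Connected
  rw [h]
  exact hB

/-- the contradiction from a connected set with `r`, `r'` -/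
private lemma core (hPCL : StPCL) (hRIM : StRIM) (hCRN : StCRN)
    (V : Type) [Finite V] (G : SimpleGraph V) (z v p q r r' : V) (f1 f2 f3 f4 : Set V)
    (hc : Cfg G z v p q r r' f1 f2 f3 f4) (t : V) (htv : t ≠ v) (htz : t ≠ z) (htr : t ≠ r) (hts : t ≠ r')
    (hp : Cof (dl G p q) {v}ᶜ p t) (hq : Cof (dl G p q) {v}ᶜ q t) (B : Set V)
    (hBv : B ⊆ {v}ᶜ) (hBc : Con G B) (hBp : p ∉ B) (hBq : q ∉ B) (hBt : t ∉ B) (hBz : z ∉ B)
    (hBr : r ∈ B) (hBs : r' ∈ B) : False := by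
  obtain ⟨c1, c2, c3, c4, -, -⟩ := hCRN V G z v p q r r' f1 f2 f3 f4 hc
  obtain ⟨P1, -, P3, P4, -, -⟩ := hPCL V (dl G p q) {v}ᶜ
  have t1 : t ∉ f1 := fun h => htr (c1 t h htz hq)
  have t2 : t ∉ f2 := fun h => htr (c2 t h htz hp)
  have t3 : t ∉ f3 := fun h => hts (c3 t h htz hp)
  have t4 : t ∉ f4 := fun h => hts (c4 t h htz hq)
  have hpv : p ≠ v := fun h => hc.ds.ne.1 h.symm
  have hqv : q ≠ v := fun h => hc.ds.ne.2.1 h.symm
  have hzp : z ≠ p := by
    intro h
    have : G.Adj z p := (hc.ds.nb p).2 (by simp)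
    exact G.ne_of_adj this h
  have hzq : z ≠ q := by
    intro h
    have : G.Adj z q := (hc.ds.nb q).2 (by simp)
    exact G.ne_of_adj this h
  obtain ⟨F, hF, hpF, htF⟩ := hp
  obtain ⟨F', hF', hqF', htF'⟩ := hq
  have hPK : PC (dl G p q) {v}ᶜ (({t} ∪ {p}) ∪ {q}) ((({F, F'} : Set (Set V)) ∪ ∅) ∪ ∅) := by
    refine P3 _ _ _ _ (P3 _ _ _ _ (P4 t {F, F'} htv ?_) (P4 p ∅ hpv (by simp)) ?_) (P4 q ∅ hqv (by simp)) ?_
    · intro E hE
      rcases hE with rfl | hE
      · exact htF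
      · rw [Set.mem_singleton_iff] at hE
        rw [hE]
        exact htF'
    · exact Or.inr (Or.inr ⟨F, by simp, p, rfl, hF, hpF⟩)
    · exact Or.inr (Or.inr ⟨F', by simp, q, rfl, hF', hqF'⟩)
  have hPL : PC (dl G p q) {v}ᶜ B ∅ := P1 B hBv (con_dl G p q B hBc hBp)
  refine hRIM V G z v p q r r' f1 f2 f3 f4 hc _ B _ ∅ hPK hPL ?_ (by simp) ?_ hBz 0 2 4 6 (by decide) (by decide)
    (by decide) ?_ ?_ ?_ ?_
  · rw [Set.disjoint_left]
    rintro a ((ha | ha) | ha) hb
    · exact hBt (ha ▸ hb)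
    · exact hBp (ha ▸ hb)
    · exact hBq (ha ▸ hb)
  · rintro ((h | h) | h)
    · exact htz h.symm
    · exact hzp h
    · exact hzq h
  · exact Or.inl ⟨rfl, Or.inl (Or.inr rfl)⟩
  · exact Or.inr (Or.inr (Or.inl ⟨rfl, hBr⟩))
  · exact Or.inr (Or.inr (Or.inr (Or.inr (Or.inl ⟨rfl, Or.inr rfl⟩))))
  · exact Or.inr (Or.inr (Or.inr (Or.inr (Or.inr (Or.inr (Or.inl ⟨rfl, hBs⟩))))))

/-- TGA -/
theorem hTGA : StFAX → StFAY → StPCL → StRIM → StCRN → StTGA := by
  intro hFAX hFAY hPCL hRIM hCRN V _ G z v p q r r' f1 f2 f3 f4 hc t htv htz htr hts hp hq Γ hΓ hzΓ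
  have core' := core hPCL hRIM hCRN V G z v p q r r' f1 f2 f3 f4 hc t htv htz htr hts hp hq
  obtain ⟨hΓU, -, hΓc, hΓn, -, -⟩ := hFAX V G {t, v}ᶜ Γ hΓ
  have zp : G.Adj z p := (hc.ds.nb p).2 (by simp)
  have zq : G.Adj z q := (hc.ds.nb q).2 (by simp)
  have zr : G.Adj z r := (hc.ds.nb r).2 (by simp)
  have zs : G.Adj z r' := (hc.ds.nb r').2 (by simp)
  obtain ⟨-, -, nvr, nvs, -, npr, nps, nqr, nqs, nrs⟩ := hc.ds.ne
  constructor
  · rintro ⟨hr, hs⟩
    obtain ⟨a, ha, b, hb, hab, haz, hbz, hN⟩ := hΓn z hzΓ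
    have h1 := (hN r hr).1 zr
    have h2 := (hN r' hs).1 zs
    have key : ∀ x ∈ Γ, G.Adj z x → x = r ∨ x = r' := by
      intro x hx hzx
      have h3 := (hN x hx).1 hzx
      rcases h1 with h1 | h1 <;> rcases h2 with h2 | h2 <;> rcases h3 with h3 | h3 <;> subst_vars <;>
        simp_all
    have hpΓ : p ∉ Γ := by
      intro h
      rcases key p h zp with h | h
      · exact npr h
      · exact nps h
    have hqΓ : q ∉ Γ := by
      intro h
      rcases key q h zq with h | h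
      · exact nqr h
      · exact nqs h
    refine core' (Γ \ {z}) ?_ (hFAY V G {t, v}ᶜ Γ hΓ z hzΓ).1 (fun h => hpΓ h.1) (fun h => hqΓ h.1)
      (fun h => (hΓU h.1) (by simp)) (fun h => h.2 rfl) ⟨hr, ?_⟩ ⟨hs, ?_⟩
    · intro x hx hxv
      exact (hΓU hx.1) (Or.inr hxv)
    · exact fun h => G.ne_of_adj zr h.symm
    · exact fun h => G.ne_of_adj zs h.symm
  · intro hE
    subst hE
    refine core' ({t, v}ᶜ \ {z, p, q}) ?_ hΓc (fun h => h.2 (by simp)) (fun h => h.2 (by simp))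
      (fun h => h.1 (by simp)) (fun h => h.2 (by simp)) ⟨?_, ?_⟩ ⟨?_, ?_⟩
    · intro x hx hxv
      exact hx.1 (Or.inr hxv)
    · rintro (h | h)
      · exact htr h.symm
      · exact nvr h.symm
    · rintro (h | h | h)
      · exact G.ne_of_adj zr h.symm
      · exact npr h.symm
      · exact nqr h.symm
    · rintro (h | h)
      · exact hts h.symm
      · exact nvs h.symm
    · rintro (h | h | h)
      · exact G.ne_of_adj zs h.symm
      · exact nps h.symm
      · exact nqs h.symm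

end Pool.Agent.Helper77.MA
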